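import Mathlib
import Pool.Agent.H9.PiAdic2

namespace Pool.Agent.Results.MP_cc6759_lc.HalfLength

open Finset Module

/-- The `π`-adic number with digits `s` equals `f / g`, with `g` invertible modulo `π`. -/
def IsRep {R : Type} [CommRing R] {N : ℕ} (π : R) (s : ℕ → Fin N) (f g : R) : Prop :=
  IsCoprime g π ∧ ∀ k : ℕ, π ^ k ∣ g * (∑ i ∈ range k, ((s i : ℕ) : R) * π ^ i) - f

/-- `N ^ φ(x)` in case (i): `u ^ 2 + N v ^ 2` for `x = u + v π`. -/
noncomputable def PhiI {R : Type} [CommRing R] (N : ℕ) (b : Basis (Fin 2) ℤ R) (x : R) : ℕ :=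
  (b.repr x 0).natAbs ^ 2 + N * (b.repr x 1).natAbs ^ 2

/-- `N ^ φ(x)` in case (ii): the largest `|u_i| ^ d N ^ i` for `x = ∑ u_i π ^ i`. -/
noncomputable def PhiII {R : Type} [CommRing R] (N : ℕ) {d : ℕ} (b : Basis (Fin d) ℤ R) (x : R) :
    ℕ := univ.sup fun i => (b.repr x i).natAbs ^ d * N ^ (i : ℕ)

/-- The complexity of a finite sequence: the least size `log_N max(Φ f, Φ g)` over all infinite
extensions `s` and all `f / g` representing `s`. -/
noncomputable def cplx {R : Type} [CommRing R] {N n : ℕ} (π : R) (Φ : R → ℕ)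
    (a : Fin n → Fin N) : ℝ :=
  sInf {x | ∃ (s : ℕ → Fin N) (f g : R), (∀ i : Fin n, s i = a i) ∧ IsRep π s f g ∧
    x = Real.logb N ((max (Φ f) (Φ g) : ℕ) : ℝ)}

/-- The average over all sequences of length `n`. -/
noncomputable def Efin {R : Type} [CommRing R] (N : ℕ) (π : R) (Φ : R → ℕ) (n : ℕ) : ℝ :=
  ((N : ℝ) ^ n)⁻¹ * ∑ a : Fin n → Fin N, cplx π Φ a

open Pool.Agent.H9.PiAdic1 Pool.Agent.H9.PiAdic2

variable {R : Type} [CommRing R] [IsDomain R] {N d : ℕ} {π : R}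

lemma cplx_bound (hN : 2 ≤ N) (b : Basis (Fin d) ℤ R) (hd : 0 < d) (hu : ¬ IsUnit π)
    (H1 : ∀ x : R, ∃ k : Fin N, π ∣ x - (k : ℕ)) (Φ : R → ℕ) (C : ℕ) (hC : 0 < C)
    (h1 : ∀ x, nr b x ^ d ≤ Φ x) (h2 : ∀ x, Φ x ≤ C * nr b x ^ d) {n : ℕ} (a : Fin n → Fin N) :
    |cplx π Φ a - n / 2| ≤ Real.logb N C + d + 2 * d / Real.log N *
      (Real.sqrt ((N ^ n : ℕ) : ℝ) / (lam b π n (val π a) ^ d : ℕ)) := by
  have ht := lam_pos b (π := π) n (val π a)
  obtain ⟨f, g, k1, k2, k3⟩ := good b H1 n (val π a)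
  have hle := fun f g => lam_le b (π := π) (n := n) (x := val π a) (f := f) (g := g)
  generalize lam b π n (val π a) = t at *
  have ht0 : (0 : ℝ) < t := by exact_mod_cast ht
  have hN1 : (1 : ℝ) < N := by exact_mod_cast (by omega : 1 < N)
  have hL : 0 < Real.log N := Real.log_pos hN1
  have hlow : ∀ x ∈ {x | ∃ (s : ℕ → Fin N) (f g : R), (∀ i : Fin n, s i = a i) ∧ IsRep π s f g ∧
      x = Real.logb N ((max (Φ f) (Φ g) : ℕ) : ℝ)}, Real.logb N (t ^ d) ≤ x := by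
    rintro _ ⟨s, f, g, hb, ⟨h3, h4⟩, rfl⟩
    have h5 := h4 n
    rw [val_eq a s hb] at h5
    have h6 := hle f g (fun h => hu (isCoprime_zero_left.1 (h.2 ▸ h3))) h5
    refine Real.logb_le_logb_of_le hN1 (by positivity) ?_
    rcases le_max_iff.1 h6 with h | h
    · exact_mod_cast le_max_of_le_left ((Nat.pow_le_pow_left h d).trans (h1 f))
    · exact_mod_cast le_max_of_le_right ((Nat.pow_le_pow_left h d).trans (h1 g))
  obtain ⟨s, hb, hb2⟩ := exists_ext H1 a k1 k2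
  have hcop : IsCoprime g π := by
    obtain ⟨z, hz⟩ := k1
    exact ⟨1, -z, by linear_combination hz⟩
  have hmem : Real.logb N ((max (Φ f) (Φ g) : ℕ) : ℝ) ∈ {x | ∃ (s : ℕ → Fin N) (f g : R),
      (∀ i : Fin n, s i = a i) ∧ IsRep π s f g ∧ x = Real.logb N ((max (Φ f) (Φ g) : ℕ) : ℝ)} :=
    ⟨s, f, g, hb, ⟨hcop, hb2⟩, rfl⟩
  have c1 : Real.logb N (t ^ d) ≤ cplx π Φ a := le_csInf ⟨_, hmem⟩ hlow
  have c2 : cplx π Φ a ≤ Real.logb N ((max (Φ f) (Φ g) : ℕ) : ℝ) := csInf_le ⟨_, hlow⟩ hmem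
  have h3 := ht.trans_le (hle f g (fun h => hu (isCoprime_zero_left.1 (h.2 ▸ hcop))) k2)
  have h4 : max (Φ f) (Φ g) ≤ C * max (nr b f) (nr b g) ^ d :=
    max_le ((h2 f).trans (by gcongr; exact le_max_left _ _))
      ((h2 g).trans (by gcongr; exact le_max_right _ _))
  have h5 : 0 < max (Φ f) (Φ g) := by
    rcases lt_max_iff.1 h3 with h | h
    · exact lt_max_of_lt_left ((pow_pos h d).trans_le (h1 f))
    · exact lt_max_of_lt_right ((pow_pos h d).trans_le (h1 g))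
  generalize max (nr b f) (nr b g) = m at *
  generalize max (Φ f) (Φ g) = P at *
  have hm0 : (0 : ℝ) < m := by exact_mod_cast h3
  have hC0 : (0 : ℝ) < C := by exact_mod_cast hC
  have h6 := Real.log_le_log (by positivity)
    (show (m : ℝ) * t ^ (2 * d) ≤ t * N ^ (n + 1) by exact_mod_cast k3)
  have h7 := Real.log_le_log (by exact_mod_cast h5)
    (show (P : ℝ) ≤ C * m ^ d by exact_mod_cast h4)
  rw [Real.log_mul (by positivity) (by positivity), Real.log_mul (by positivity) (by positivity),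
    Real.log_pow, Real.log_pow] at h6
  rw [Real.log_mul (by positivity) (by positivity), Real.log_pow] at h7
  have hs : (0 : ℝ) < Real.sqrt ((N ^ n : ℕ) : ℝ) := Real.sqrt_pos.2 (by positivity)
  have h8 := Real.log_le_sub_one_of_pos (div_pos hs (pow_pos ht0 d))
  have h9 := (div_pos hs (pow_pos ht0 d)).le
  rw [Real.log_div hs.ne' (by positivity), Real.log_sqrt (by positivity), Nat.cast_pow,
    Real.log_pow, Real.log_pow] at h8
  rw [Nat.cast_pow] at h9
  rw [Nat.cast_pow, Nat.cast_pow]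
  generalize Real.sqrt ((N : ℝ) ^ n) / t ^ d = q at *
  have hK : 0 ≤ Real.log C := Real.log_nonneg (by exact_mod_cast hC)
  have hd1 : (1 : ℝ) ≤ d := by exact_mod_cast hd
  unfold Real.logb at c1 c2 ⊢
  rw [div_le_iff₀ hL, Real.log_pow] at c1
  rw [le_div_iff₀ hL] at c2
  have e : Real.log C / Real.log N + d + 2 * d / Real.log N * q =
      (Real.log C + d * Real.log N + 2 * d * q) / Real.log N := by field_simp
  rw [e, le_div_iff₀ hL, ← abs_of_pos hL, ← abs_mul, abs_of_pos hL, abs_le]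
  push_cast at h6
  have h10 := mul_le_mul_of_nonneg_left h6 (by positivity : (0 : ℝ) ≤ d)
  have h11 := mul_le_mul_of_nonneg_left h8 (by linarith : (0 : ℝ) ≤ 2 * d - 1)
  have h12 := mul_le_mul_of_nonneg_right hd1 h9
  have h13 : 0 ≤ d * Real.log N := by positivity
  constructor <;> linarith

lemma main (hN : 2 ≤ N) (b : Basis (Fin (d + 1)) ℤ R) (hb : ∀ i, b i = π ^ (i : ℕ)) (e : ℤ)
    (he : e ≠ 0) (hπ : π ^ (d + 1) = e * N) (hπ' : π ∣ N) (Φ : R → ℕ) (C : ℕ) (hC : 0 < C)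
    (h1 : ∀ x, nr b x ^ (d + 1) ≤ Φ x) (h2 : ∀ x, Φ x ≤ C * nr b x ^ (d + 1)) :
    ∃ K : ℝ, ∀ n : ℕ, |Efin N π Φ n - n / 2| ≤ K := by
  have hb0 : b 0 = 1 := by simpa using hb 0
  have hr : ∀ m : ℤ, b.repr (m : R) 0 = m := fun m => by
    rw [← mul_one (m : R), ← zsmul_eq_mul, ← hb0, map_smul]; simp
  have hdv : ∀ y, (N : ℤ) ∣ b.repr (π * y) 0 := fun y => by
    rw [← b.sum_repr y, mul_sum, map_sum, Finsupp.finsetSum_apply]
    refine dvd_sum fun i _ => ?_
    rw [mul_smul_comm, map_smul, Finsupp.smul_apply, hb, ← pow_succ']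
    refine Dvd.dvd.mul_left ?_ _
    induction i using Fin.lastCases with
    | last => rw [Fin.val_last, hπ, ← Int.cast_natCast (R := R), ← Int.cast_mul, hr]; simp
    | cast j =>
      rw [Fin.val_castSucc, ← Fin.val_succ, ← hb]
      simp
  have H1 : ∀ x : R, ∃ k : Fin N, π ∣ x - (k : ℕ) := fun x => by
    have e1 := Int.emod_nonneg (b.repr x 0) (by omega : (N : ℤ) ≠ 0)
    have e2 := Int.emod_lt_of_pos (b.repr x 0) (by omega : (0 : ℤ) < N)
    refine ⟨⟨(b.repr x 0 % N).toNat, by omega⟩, ?_⟩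
    have e3 : (((b.repr x 0 % N).toNat : ℕ) : R) = b.repr x 0 - N * (b.repr x 0 / N : ℤ) := by
      rw [← Int.cast_natCast, Int.toNat_of_nonneg e1, Int.emod_def]; push_cast; rfl
    have e4 : π ∣ x - b.repr x 0 := by
      conv => enter [2, 1]; rw [← b.sum_repr x, Fin.sum_univ_succ, hb0, zsmul_eq_mul, mul_one]
      rw [add_sub_cancel_left]
      refine dvd_sum fun i _ => ?_
      rw [zsmul_eq_mul, hb, Fin.val_succ]
      exact (dvd_pow_self π (by omega)).mul_left _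
    show π ∣ x - (((b.repr x 0 % N).toNat : ℕ) : R)
    rw [e3]
    convert dvd_add e4 (hπ'.mul_right ((b.repr x 0 / N : ℤ) : R)) using 1
    ring
  have H2 : ∀ k k' : Fin N, π ∣ ((k : ℕ) : R) - (k' : ℕ) → k = k' := by
    rintro k k' ⟨y, hy⟩
    have := hdv y
    rw [← hy, ← Int.cast_natCast (R := R) k, ← Int.cast_natCast (R := R) k', ← Int.cast_sub,
      hr] at this
    have := Int.eq_zero_of_abs_lt_dvd this (by rw [abs_lt]; omega)
    omega
  have h0 : π ≠ 0 := fun h => by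
    have := hr (e * N)
    rw [Int.cast_mul, Int.cast_natCast, ← hπ, h, zero_pow (by omega)] at this
    exact mul_ne_zero he (by omega : (N : ℤ) ≠ 0) (by simpa using this.symm)
  have hu : ¬ IsUnit π := fun h => by
    have := H2 ⟨0, by omega⟩ ⟨1, by omega⟩ h.dvd
    simp at this
  obtain ⟨C1, hC1⟩ := count b h0 H1 H2
  refine ⟨Real.logb N C + (d + 1 : ℕ) + 2 * (d + 1 : ℕ) / Real.log N * (2 + C1), fun n => ?_⟩
  have hL : 0 < Real.log N := Real.log_pos (by exact_mod_cast (by omega : 1 < N))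
  have hM : (0 : ℝ) < (N : ℝ) ^ n := by positivity
  have hcard : (Fintype.card (Fin n → Fin N) : ℝ) = (N : ℝ) ^ n := by simp
  have e : Efin N π Φ n - n / 2 =
      ((N : ℝ) ^ n)⁻¹ * ∑ a : Fin n → Fin N, (cplx π Φ a - n / 2) := by
    rw [sum_sub_distrib, sum_const, card_univ, nsmul_eq_mul, hcard, Efin]
    field_simp
  rw [e, abs_mul, abs_of_pos (inv_pos.2 hM), inv_mul_le_iff₀ hM]
  refine (abs_sum_le_sum_abs _ _).trans ((sum_le_sum fun a _ =>
    cplx_bound hN b d.succ_pos hu H1 Φ C hC h1 h2 a).trans ?_)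
  rw [sum_add_distrib, sum_const, card_univ, nsmul_eq_mul, hcard, ← mul_sum, mul_add _ _ (_ * _)]
  have h3 := sum_inv (N ^ n) (by positivity) (by simp)
    (fun a : Fin n → Fin N => lam b π n (val π a) ^ (d + 1))
    (fun a => pow_pos (lam_pos b n _) _) C1 (hC1 n)
  rw [mul_left_comm, mul_comm _ (2 + C1 : ℝ), ← Nat.cast_pow]
  gcongr

theorem result (N : ℕ) (hN : 2 ≤ N) (R : Type) [CommRing R] [IsDomain R] (π : R) :
    (∀ b : Basis (Fin 2) ℤ R, (∀ i, b i = π ^ (i : ℕ)) → π ^ 2 = -(N : R) →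
      ∃ C : ℝ, ∀ n : ℕ, |Efin N π (PhiI N b) n - n / 2| ≤ C) ∧
    (∀ d : ℕ, 0 < d → ∀ b : Basis (Fin d) ℤ R, (∀ i, b i = π ^ (i : ℕ)) → π ^ d = (N : R) →
      ∃ C : ℝ, ∀ n : ℕ, |Efin N π (PhiII N b) n - n / 2| ≤ C) := by
  refine ⟨fun b hb hπ => main hN b hb (-1) (by simp) (by simpa using hπ)
    ⟨-π, by linear_combination hπ⟩ _ (1 + N) (by omega) (fun x => ?_) fun x => ?_,
    fun d hd b hb hπ => ?_⟩
  · obtain ⟨i, -, hi⟩ := exists_mem_eq_sup univ univ_nonempty fun i => (b.repr x i).natAbs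
    rw [nr, hi, PhiI]
    fin_cases i
    · exact Nat.le_add_right _ _
    · exact le_add_left (Nat.le_mul_of_pos_left _ (by omega))
  · have h : ∀ i, (b.repr x i).natAbs ≤ nr b x := fun i =>
      le_sup (f := fun i => (b.repr x i).natAbs) (mem_univ i)
    rw [PhiI, add_mul, one_mul]
    gcongr <;> apply h
  · obtain ⟨d, rfl⟩ : ∃ e, d = e + 1 := ⟨d - 1, by omega⟩
    refine main hN b hb 1 (by simp) (by simpa using hπ) (hπ ▸ dvd_pow_self π (by omega)) _
      (N ^ (d + 1)) (by positivity) (fun x => ?_) fun x => Finset.sup_le fun i _ => ?_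
    · obtain ⟨i, -, hi⟩ := exists_mem_eq_sup univ univ_nonempty fun i => (b.repr x i).natAbs
      rw [nr, hi]
      exact (Nat.le_mul_of_pos_right _ (by positivity)).trans
        (le_sup (f := fun i => (b.repr x i).natAbs ^ (d + 1) * N ^ (i : ℕ)) (mem_univ i))
    · rw [mul_comm]
      exact Nat.mul_le_mul (Nat.pow_le_pow_right (by omega) i.2.le)
        (Nat.pow_le_pow_left (le_sup (f := fun i => (b.repr x i).natAbs) (mem_univ i)) _)

end Pool.Agent.Results.MP_cc6759_lc.HalfLength
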